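import Pool.Agent.H5.RN.Inst

set_option autoImplicit false

/-!
Project RN (S11118), plan C, part C1: one market equilibrium per spot determines the range of every
optimal good matching.
-/

open scoped BigOperators

namespace H45RN

open H5RN

variable {α β τ : Type} [Fintype α] [Fintype β]

/-- The data which determine the used terminals at one spot. -/
structure Equil (adj : α → β → Prop) (T : Set β) (b : β → E2) (c : α → β → ℝ) (t : E2)
    (σ₀ : α ↪ β) (Z : β → ℝ) : Prop where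
  good : Good adj T σ₀
  term : ∀ y ∈ T, Z y = 2 * inner ℝ (b y) t
  best : ∀ x y, adj x y → c x (σ₀ x) + Z (σ₀ x) ≤ c x y + Z y
  strict : ∀ y ∈ T, ∀ x, adj x y → (σ₀ x = y ∧ ∀ y', adj x y' → y' ≠ y → c x y + Z y < c x y' + Z y')
    ∨ (σ₀ x ≠ y ∧ c x (σ₀ x) + Z (σ₀ x) < c x y + Z y)

/-- the cost of a good matching in terms of the prices -/
theorem gcost_eq (adj : α → β → Prop) (T : Set β) [DecidablePred (· ∈ T)] (b : β → E2)
    (c : α → β → ℝ) (t : E2) (Z : β → ℝ) (hZ : ∀ y ∈ T, Z y = 2 * inner ℝ (b y) t)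
    (σ : α ↪ β) (hσ : Good adj T σ) :
    gcost T b c t σ = ∑ x, (c x (σ x) + Z (σ x))
      - ∑ y ∈ Finset.univ.filter (fun y : β => y ∉ T), Z y := by
  have h := spot_sum adj T Z σ hσ
  unfold gcost
  rw [Finset.sum_add_distrib, h]
  have : ∑ x, (if σ x ∈ T then 2 * inner ℝ (b (σ x)) t else 0)
      = ∑ x, (if σ x ∈ T then Z (σ x) else 0) := by
    refine Finset.sum_congr rfl fun x _ => ?_
    by_cases hx : σ x ∈ T
    · simp [hx, hZ _ hx]
    · simp [hx]
  rw [this]
  ring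

theorem range_of_equil (adj : α → β → Prop) (T : Set β) [DecidablePred (· ∈ T)] (b : β → E2)
    (c : α → β → ℝ) (t : E2) (σ₀ : α ↪ β) (Z : β → ℝ) (h : Equil adj T b c t σ₀ Z)
    (σ : α ↪ β) (hσ : Good adj T σ)
    (hopt : ∀ σ' : α ↪ β, Good adj T σ' → gcost T b c t σ ≤ gcost T b c t σ') :
    Finset.univ.map σ = Finset.univ.map σ₀ := by
  classical
  have h0 := hopt σ₀ h.good
  rw [gcost_eq adj T b c t Z h.term σ hσ, gcost_eq adj T b c t Z h.term σ₀ h.good] at h0
  have hle : ∀ x ∈ (Finset.univ : Finset α), c x (σ₀ x) + Z (σ₀ x) ≤ c x (σ x) + Z (σ x) :=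
    fun x _ => h.best x _ (hσ.1 x)
  have hsum : ∑ x, (c x (σ₀ x) + Z (σ₀ x)) = ∑ x, (c x (σ x) + Z (σ x)) :=
    le_antisymm (Finset.sum_le_sum hle) (by linarith)
  have heq : ∀ x, c x (σ₀ x) + Z (σ₀ x) = c x (σ x) + Z (σ x) := fun x =>
    (Finset.sum_eq_sum_iff_of_le hle).1 hsum x (Finset.mem_univ x)
  ext y
  simp only [Finset.mem_map, Finset.mem_univ, true_and]
  by_cases hy : y ∈ T
  · constructor
    · rintro ⟨x, hx⟩
      rcases h.strict y hy x (hx ▸ hσ.1 x) with ⟨h1, -⟩ | ⟨-, h2⟩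
      · exact ⟨x, h1⟩
      · exfalso
        have := heq x
        rw [hx] at this
        linarith
    · rintro ⟨x, hx⟩
      refine ⟨x, ?_⟩
      rcases h.strict y hy x (hx ▸ h.good.1 x) with ⟨-, h2⟩ | ⟨h1, -⟩
      · by_contra hne
        have h3 := h2 _ (hσ.1 x) hne
        have := heq x
        rw [hx] at this
        linarith
      · exact absurd hx h1
  · exact ⟨fun _ => h.good.2 y hy, fun _ => hσ.2 y hy⟩

/-- **C1.** A tight geometric bipartite graph with an equilibrium at every spot and pairwise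
different ranges gives a price instance. -/
theorem inst_of_equil [Finite τ] [Nonempty τ]
    (a : α → E2) (b : β → E2) (adj : α → β → Prop) (u : α → ℝ) (price : β → ℝ)
    (T : Set β)
    (h1 : ∀ x y, adj x y → ‖a x - b y‖ ^ 2 + price y = u x)
    (h2 : ∀ x y, ¬ adj x y → u x < ‖a x - b y‖ ^ 2 + price y)
    (hp : ∀ y, y ∉ T → 0 < price y) (hT : ∀ y, y ∈ T → price y = 0)
    (c : α → β → ℝ)
    (hc : ∀ x, ∃ (p : E2) (k : ℝ), ∀ y, adj x y → inner ℝ (b y) p + k = c x y)
    (t : τ → E2) (σ₀ : τ → (α ↪ β)) (Z : τ → β → ℝ)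
    (heq : ∀ s, Equil adj T b c (t s) (σ₀ s) (Z s))
    (hinj : ∀ s s', (∀ y ∈ T, (∃ x, σ₀ s x = y) ↔ (∃ x, σ₀ s' x = y)) → s = s') :
    Nonempty (H87RN.Inst α β τ) := by
  classical
  refine inst_of_geo a b adj u price T h1 h2 hp hT c hc t (fun s => Finset.univ.map (σ₀ s)) ?_
    ⟨σ₀ (Classical.arbitrary τ), (heq _).good⟩ ?_
  · intro s s' hs
    apply hinj
    intro y _
    have : y ∈ Finset.univ.map (σ₀ s) ↔ y ∈ Finset.univ.map (σ₀ s') := by
      simp only at hs
      rw [hs]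
    simpa [Finset.mem_map] using this
  · intro s σ hσ hopt
    exact range_of_equil adj T b c (t s) (σ₀ s) (Z s) (heq s) σ hσ hopt

end H45RN
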